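import Pool.Agent.Lib_helper79.Q3.Check
import Pool.Agent.Lib_helper96.Q3.CHI

/-! Assembly, part 1: list lemmas, primes, characters. -/

set_option autoImplicit false
set_option maxRecDepth 1000000

namespace Pool.Agent.Q3

theorem allB_iff {α : Type} (f : α → Bool) (l : List α) :
    allB f l = true ↔ ∀ a ∈ l, f a = true := by
  induction l with
  | nil => simp [allB]
  | cons a t ih =>
    have : allB f (a :: t) = Bool.and (f a) (allB f t) := rfl
    rw [this, Bool.and_eq_true, ih]
    simp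

theorem anyB_iff {α : Type} (f : α → Bool) (l : List α) :
    anyB f l = true ↔ ∃ a ∈ l, f a = true := by
  induction l with
  | nil => simp [anyB]
  | cons a t ih =>
    have : anyB f (a :: t) = Bool.or (f a) (anyB f t) := rfl
    rw [this, Bool.or_eq_true, ih]
    simp

theorem mapL_eq {α β : Type} (f : α → β) (l : List α) : mapL f l = l.map f := by
  induction l with
  | nil => rfl
  | cons a t ih =>
    have : mapL f (a :: t) = f a :: mapL f t := rfl
    rw [this, ih]; rfl

theorem nodupB_iff (l : List ℕ) : nodupB l = true ↔ l.Nodup := by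
  induction l with
  | nil => simp [nodupB]
  | cons a t ih =>
    have : nodupB (a :: t) = Bool.and (allB (fun b => Bool.not (Nat.beq a b)) t) (nodupB t) := rfl
    rw [this, Bool.and_eq_true, ih, allB_iff, List.nodup_cons]
    refine and_congr ?_ Iff.rfl
    constructor
    · intro h hm
      have := h a hm
      simp at this
    · intro h b hb
      simp only [Bool.not_eq_true']
      rw [Bool.eq_false_iff]
      intro h2
      exact h (Nat.eq_of_beq_eq_true h2 ▸ hb)

theorem memB_iff (a : ℕ) (l : List ℕ) : memB a l = true ↔ a ∈ l := by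
  unfold memB
  rw [anyB_iff]
  constructor
  · rintro ⟨b, hb, h⟩
    exact Nat.eq_of_beq_eq_true h ▸ hb
  · intro h
    exact ⟨a, h, Nat.beq_refl a⟩

theorem eqB_eq {α : Type} (f : α → ℕ) (l : List α) (m : List ℕ) (h : eqB f l m = true) :
    l.map f = m := by
  induction l generalizing m with
  | nil =>
    cases m with
    | nil => rfl
    | cons b t => exact absurd h (by simp [eqB])
  | cons a t ih =>
    cases m with
    | nil => exact absurd h (by simp [eqB])
    | cons b s =>
      have h1 : eqB f (a :: t) (b :: s) = Bool.and (Nat.beq (f a) b) (eqB f t s) := rfl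
      rw [h1, Bool.and_eq_true] at h
      rw [List.map_cons, ih s h.2, Nat.eq_of_beq_eq_true h.1]

theorem beq_eq_beq (a b : ℕ) : (a == b) = Nat.beq a b := by
  rw [Bool.eq_iff_iff, beq_iff_eq, Nat.beq_eq]

/-- the 20 primes -/
def P (j : Fin 20) : ℕ := (PW.getD j.val (0, 0)).1
/-- the roots of unity -/
def W (j : Fin 20) : ℕ := (PW.getD j.val (0, 0)).2

theorem P_prime (j : Fin 20) : (P j).Prime := by
  fin_cases j <;> (simp only [P, PW]; norm_num)

instance (j : Fin 20) : Fact (P j).Prime := ⟨P_prime j⟩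

theorem P_gt (j : Fin 20) : 7 < P j := by
  fin_cases j <;> (simp only [P, PW]; norm_num)

theorem P_e7 (j : Fin 20) : 7 * ((P j - 1) / 7) + 1 = P j := by
  fin_cases j <;> (simp only [P, PW]; norm_num)

theorem P_e2 (j : Fin 20) : 2 * ((P j - 1) / 2) + 1 = P j := by
  fin_cases j <;> (simp only [P, PW]; norm_num)

theorem W_pow (j : Fin 20) : W j ^ 7 % P j = 1 := by
  fin_cases j <;> (simp only [P, W, PW]; norm_num)

theorem W_ne (j : Fin 20) : W j % P j ≠ 1 := by
  fin_cases j <;> (simp only [P, W, PW]; norm_num)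

theorem i7_eq (j : Fin 20) (x : ℕ) (hx : x % P j ≠ 0) :
    i7 (P j) (W j) x = idx (P j) 7 ((P j - 1) / 7) (W j) x := by
  have hs := (chi_spec (P_prime j) (by norm_num : Nat.Prime 7) (P_e7 j) (W_pow j) (W_ne j) hx).1
  obtain ⟨hs1, hs2⟩ := chi_spec (P_prime j) (by norm_num : Nat.Prime 7) (P_e7 j) (W_pow j)
    (W_ne j) hx
  have h1 : (x ^ ((P j - 1) / 7)) % P j = W j ^ (idx (P j) 7 ((P j - 1) / 7) (W j) x) % P j := by
    have h3 : ((x ^ ((P j - 1) / 7) : ℕ) : ZMod (P j)) =
      ((W j ^ (idx (P j) 7 ((P j - 1) / 7) (W j) x) : ℕ) : ZMod (P j)) := by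
      push_cast
      exact hs2
    exact (ZMod.natCast_eq_natCast_iff _ _ _).mp h3
  have hr : (x % P j) ^ ((P j - 1) / 7) % P j = x ^ ((P j - 1) / 7) % P j :=
    (Nat.pow_mod _ _ _).symm
  unfold i7
  rw [hr]
  have h0 : (1 : ℕ) = W j ^ 0 % P j := by
    rw [pow_zero, Nat.mod_eq_of_lt (P_prime j).one_lt]
  have h01 : W j % P j = W j ^ 1 % P j := by rw [pow_one]
  unfold ix7
  have hi : idx (P j) 7 ((P j - 1) / 7) (W j) x =
      (([0, 1, 2, 3, 4, 5, 6] : List ℕ).find? (fun k => (x ^ ((P j - 1) / 7)) % P j == (W j ^ k) % P j)).getD 0 := rfl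
  generalize hR : x ^ ((P j - 1) / 7) % P j = r at *
  generalize hI : idx (P j) 7 ((P j - 1) / 7) (W j) x = I at *
  rw [hi]
  simp only [List.find?]
  rw [h01]
  have hb : Nat.beq r 1 = Nat.beq r (W j ^ 0 % P j) := by rw [← h0]
  rw [hb]
  simp only [beq_eq_beq]
  cases c0 : Nat.beq r (W j ^ 0 % P j)
  · cases c1 : Nat.beq r (W j ^ 1 % P j)
    · cases c2 : Nat.beq r (W j ^ 2 % P j)
      · cases c3 : Nat.beq r (W j ^ 3 % P j)
        · cases c4 : Nat.beq r (W j ^ 4 % P j)
          · cases c5 : Nat.beq r (W j ^ 5 % P j)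
            · cases c6 : Nat.beq r (W j ^ 6 % P j)
              · exfalso
                have : I = 0 ∨ I = 1 ∨ I = 2 ∨ I = 3 ∨ I = 4 ∨ I = 5 ∨ I = 6 := by omega
                have hne : ∀ k, Nat.beq r (W j ^ k % P j) = false → I ≠ k := by
                  intro k hk hIk
                  rw [h1, hIk, Nat.beq_refl] at hk
                  exact absurd hk (by simp)
                rcases this with h | h | h | h | h | h | h
                · exact hne 0 c0 h
                · exact hne 1 c1 h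
                · exact hne 2 c2 h
                · exact hne 3 c3 h
                · exact hne 4 c4 h
                · exact hne 5 c5 h
                · exact hne 6 c6 h
              · rfl
            · rfl
          · rfl
        · rfl
      · rfl
    · rfl
  · rfl

theorem i2_eq (j : Fin 20) (x : ℕ) (hx : x % P j ≠ 0) :
    i2 (P j) x = idx (P j) 2 ((P j - 1) / 2) (P j - 1) x := by
  have hp := P_gt j
  have hw1 : (P j - 1) ^ 2 % P j = 1 := by
    have : (P j - 1) ^ 2 = 1 + P j * (P j - 2) := by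
      obtain ⟨k, hk⟩ : ∃ k, P j = k + 2 := ⟨P j - 2, by omega⟩
      rw [hk]
      have h1 : k + 2 - 1 = k + 1 := by omega
      have h2 : k + 2 - 2 = k := by omega
      rw [h1, h2]; ring
    rw [this, Nat.add_mul_mod_self_left, Nat.mod_eq_of_lt (by omega)]
  have hw2 : (P j - 1) % P j ≠ 1 := by
    rw [Nat.mod_eq_of_lt (by omega)]
    omega
  obtain ⟨hs1, hs2⟩ := chi_spec (P_prime j) (by norm_num : Nat.Prime 2) (P_e2 j) hw1 hw2 hx
  have h1 : (x ^ ((P j - 1) / 2)) % P j =
      (P j - 1) ^ (idx (P j) 2 ((P j - 1) / 2) (P j - 1) x) % P j := by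
    have h3 : ((x ^ ((P j - 1) / 2) : ℕ) : ZMod (P j)) =
      (((P j - 1) ^ (idx (P j) 2 ((P j - 1) / 2) (P j - 1) x) : ℕ) : ZMod (P j)) := by
      push_cast
      push_cast at hs2
      exact hs2
    exact (ZMod.natCast_eq_natCast_iff _ _ _).mp h3
  have hr : (x % P j) ^ ((P j - 1) / 2) % P j = x ^ ((P j - 1) / 2) % P j :=
    (Nat.pow_mod _ _ _).symm
  unfold i2
  rw [hr]
  have h0 : (1 : ℕ) = (P j - 1) ^ 0 % P j := by
    rw [pow_zero, Nat.mod_eq_of_lt (P_prime j).one_lt]
  have hi : idx (P j) 2 ((P j - 1) / 2) (P j - 1) x =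
      (([0, 1] : List ℕ).find? (fun k => (x ^ ((P j - 1) / 2)) % P j == ((P j - 1) ^ k) % P j)).getD 0 := rfl
  generalize hR : x ^ ((P j - 1) / 2) % P j = r at *
  generalize hI : idx (P j) 2 ((P j - 1) / 2) (P j - 1) x = I at *
  rw [hi]
  simp only [List.find?]
  have hb : Nat.beq r 1 = Nat.beq r ((P j - 1) ^ 0 % P j) := by rw [← h0]
  rw [hb]
  simp only [beq_eq_beq]
  cases c0 : Nat.beq r ((P j - 1) ^ 0 % P j)
  · cases c1 : Nat.beq r ((P j - 1) ^ 1 % P j)
    · exfalso
      have : I = 0 ∨ I = 1 := by omega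
      have hne : ∀ k, Nat.beq r ((P j - 1) ^ k % P j) = false → I ≠ k := by
        intro k hk hIk
        rw [h1, hIk, Nat.beq_refl] at hk
        exact absurd hk (by simp)
      rcases this with h | h
      · exact hne 0 c0 h
      · exact hne 1 c1 h
    · rfl
  · rfl

theorem i7_mod (p ω x : ℕ) : i7 p ω (x % p) = i7 p ω x := by
  unfold i7; rw [Nat.mod_mod]

theorem i2_mod (p x : ℕ) : i2 p (x % p) = i2 p x := by
  unfold i2; rw [Nat.mod_mod]

theorem val_mod_ne {p : ℕ} [Fact p.Prime] {x : ZMod p} (hx : x ≠ 0) : x.val % p ≠ 0 := by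
  rw [Nat.mod_eq_of_lt (ZMod.val_lt x)]
  intro h
  exact hx ((ZMod.val_eq_zero x).mp h)

/-- the seventh power character -/
def chi7 (j : Fin 20) (x : ZMod (P j)) : ZMod 7 := (i7 (P j) (W j) x.val : ZMod 7)

/-- the quadratic character -/
def chi2 (j : Fin 20) (x : ZMod (P j)) : ZMod 2 := (i2 (P j) x.val : ZMod 2)

theorem chi7_mul (j : Fin 20) (x y : ZMod (P j)) (hx : x ≠ 0) (hy : y ≠ 0) :
    chi7 j (x * y) = chi7 j x + chi7 j y := by
  have h1 := val_mod_ne hx
  have h2 := val_mod_ne hy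
  have h3 := val_mod_ne (mul_ne_zero hx hy)
  have h4 := (chi_pr (P j) 7 ((P j - 1) / 7) (W j) (P_prime j) (by norm_num) (P_e7 j) (W_pow j)
    (W_ne j) x.val y.val h1 h2).1
  unfold chi7
  rw [i7_eq j _ h3, i7_eq j _ h1, i7_eq j _ h2, ← h4, ZMod.val_mul, chi_idx_mod]

theorem chi2_mul (j : Fin 20) (x y : ZMod (P j)) (hx : x ≠ 0) (hy : y ≠ 0) :
    chi2 j (x * y) = chi2 j x + chi2 j y := by
  have h1 := val_mod_ne hx
  have h2 := val_mod_ne hy
  have h3 := val_mod_ne (mul_ne_zero hx hy)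
  have hp := P_gt j
  have hw1 : (P j - 1) ^ 2 % P j = 1 := by
    have : (P j - 1) ^ 2 = 1 + P j * (P j - 2) := by
      obtain ⟨k, hk⟩ : ∃ k, P j = k + 2 := ⟨P j - 2, by omega⟩
      rw [hk]
      have h1 : k + 2 - 1 = k + 1 := by omega
      have h2 : k + 2 - 2 = k := by omega
      rw [h1, h2]; ring
    rw [this, Nat.add_mul_mod_self_left, Nat.mod_eq_of_lt (by omega)]
  have hw2 : (P j - 1) % P j ≠ 1 := by
    rw [Nat.mod_eq_of_lt (by omega)]
    omega
  have h4 := (chi_pr (P j) 2 ((P j - 1) / 2) (P j - 1) (P_prime j) (by norm_num) (P_e2 j) hw1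
    hw2 x.val y.val h1 h2).1
  unfold chi2
  rw [i2_eq j _ h3, i2_eq j _ h1, i2_eq j _ h2, ← h4, ZMod.val_mul, chi_idx_mod]

end Pool.Agent.Q3
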