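import Pool.Agent.Lib_helper79.Q3.Asm1

/-! Assembly, part 2: the map `XX`, the patterns, the base slopes. -/

set_option autoImplicit false
set_option maxRecDepth 1000000

namespace Pool.Agent.Q3

theorem all2_get {α β : Type} (f : α → β → Bool) (l : List α) (m : List β)
    (h : all2 f l m = true) (i : ℕ) (hi : i < l.length) (d : α) (d' : β) :
    f (l.getD i d) (m.getD i d') = true := by
  induction l generalizing m i with
  | nil => simp at hi
  | cons a t ih =>
    cases m with
    | nil => exact absurd h (by simp [all2])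
    | cons b s =>
      have h1 : all2 f (a :: t) (b :: s) = Bool.and (f a b) (all2 f t s) := rfl
      rw [h1, Bool.and_eq_true] at h
      cases i with
      | zero => simpa using h.1
      | succ k =>
        simp only [List.getD_cons_succ]
        exact ih s h.2 k (by simpa using hi)

theorem chkSws_get (l : List (ℕ × ℕ)) (m : List (List ℕ)) (j : ℕ)
    (h : chkSws l j m = true) (i : ℕ) (hi : i < l.length) :
    chkSw (l.getD i (0, 0)) (j + i) (m.getD i []) = true := by
  induction l generalizing m i j with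
  | nil => simp at hi
  | cons a t ih =>
    cases m with
    | nil => exact absurd h (by simp [chkSws])
    | cons b s =>
      have h1 : chkSws (a :: t) j (b :: s) = Bool.and (chkSw a j b) (chkSws t (j + 1) s) := rfl
      rw [h1, Bool.and_eq_true] at h
      cases i with
      | zero => simpa using h.1
      | succ k =>
        simp only [List.getD_cons_succ]
        have := ih s (j + 1) h.2 k (by simpa using hi)
        rwa [show j + 1 + k = j + (k + 1) by ring] at this

theorem chkQ_get (p : ℕ) (s : List ℕ) (a : ℕ) (h : chkQ p s a = true) (i : ℕ)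
    (hi : i < s.length) : ∀ l ∈ L7, ((s.getD i 0 + l + (p - 3)) % p ≠ 0) ∧
      i2 p (s.getD i 0 + l + (p - 3)) = (a + i) / 2 ^ l % 2 := by
  induction s generalizing a i with
  | nil => simp at hi
  | cons x t ih =>
    have h1 : chkQ p (x :: t) a = Bool.and
      (allB (fun l => Bool.and (Bool.not (Nat.beq ((x + l + (p - 3)) % p) 0))
      (Nat.beq (i2 p (x + l + (p - 3))) (a / 2 ^ l % 2))) L7) (chkQ p t (a + 1)) := rfl
    rw [h1, Bool.and_eq_true, allB_iff] at h
    cases i with
    | zero =>
      intro l hl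
      have h2 := h.1 l hl
      rw [Bool.and_eq_true] at h2
      refine ⟨?_, ?_⟩
      · intro h3
        have h4 := h2.1
        simp only [List.getD_cons_zero] at h3
        rw [h3] at h4
        simp at h4
      · have := Nat.eq_of_beq_eq_true h2.2
        simpa using this
    | succ k =>
      simp only [List.getD_cons_succ]
      have := ih (a + 1) h.2 k (by simpa using hi)
      rwa [show a + 1 + k = a + (k + 1) by ring] at this

theorem mapi_eq (f : ℕ → ℕ → ℕ) (l : List ℕ) (i : ℕ) :
    mapi f l i = (List.range l.length).map (fun k => f (i + k) (l.getD k 0)) := by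
  induction l generalizing i with
  | nil => rfl
  | cons a t ih =>
    have h1 : mapi f (a :: t) i = f i a :: mapi f t (i + 1) := rfl
    rw [h1, ih, List.length_cons, List.range_succ_eq_map, List.map_cons, List.map_map]
    congr 1
    apply List.map_congr_left
    intro k hk
    simp only [Function.comp, Nat.succ_eq_add_one, List.getD_cons_succ]
    rw [show i + 1 + k = i + (k + 1) by ring]

theorem L_nonneg (p : ℕ) (hp : 7 < p) (x : ℕ) (l : Fin 7) :
    ((x : ZMod p) + (L l : ZMod p)) = ((x + l.val + (p - 3) : ℕ) : ZMod p) := by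
  unfold L
  have h : ((p - 3 : ℕ) : ZMod p) = -3 := by
    rw [Nat.cast_sub (by omega)]
    simp
  push_cast
  rw [h]
  ring

theorem L7_mem (l : Fin 7) : l.val ∈ L7 := by
  fin_cases l <;> simp [L7]

theorem chi7_cast (j : Fin 20) (w : ℕ) : chi7 j ((w : ℕ) : ZMod (P j)) = (i7 (P j) (W j) w : ZMod 7) := by
  unfold chi7
  rw [ZMod.val_natCast, i7_mod]

theorem chi2_cast (j : Fin 20) (w : ℕ) : chi2 j ((w : ℕ) : ZMod (P j)) = (i2 (P j) w : ZMod 2) := by
  unfold chi2
  rw [ZMod.val_natCast, i2_mod]

theorem cast_ne_zero {p w : ℕ} (h : w % p ≠ 0) : ((w : ℕ) : ZMod p) ≠ 0 := by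
  intro h2
  rw [ZMod.natCast_eq_zero_iff] at h2
  exact h (Nat.mod_eq_zero_of_dvd h2)

theorem quad (j : Fin 20) (hj : j.val < 13) (b : Fin 7 → ZMod 2) :
    ∃ μ : ZMod (P j), ∀ l : Fin 7, μ + (L l : ZMod (P j)) ≠ 0 ∧
      chi2 j (μ + (L l : ZMod (P j))) = b l := by
  have h1 := all2_get _ _ _ chk_qp j.val (by simpa [Q2] using hj) 0 []
  have hP : Q2.getD j.val 0 = P j := by
    have : ∀ k : Fin 20, k.val < 13 → Q2.getD k.val 0 = P k := by decide
    exact this j hj
  simp only [hP] at h1
  rw [Bool.and_eq_true] at h1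
  have hlen := Nat.eq_of_beq_eq_true h1.1
  set s := QP.getD j.val [] with hs
  -- the pattern number
  let a : ℕ := ∑ l : Fin 7, (b l).val * 2 ^ l.val
  have hbv : ∀ l, (b l).val < 2 := fun l => ZMod.val_lt (b l)
  have ha : a < 128 := by
    have h0 := hbv 0; have h1 := hbv 1; have h2 := hbv 2; have h3 := hbv 3
    have h4 := hbv 4; have h5 := hbv 5; have h6 := hbv 6
    simp only [a, Fin.sum_univ_seven]
    simp
    omega
  have hbit : ∀ l : Fin 7, a / 2 ^ l.val % 2 = (b l).val := by
    have h0 := hbv 0; have h1 := hbv 1; have h2 := hbv 2; have h3 := hbv 3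
    have h4 := hbv 4; have h5 := hbv 5; have h6 := hbv 6
    intro l
    simp only [a, Fin.sum_univ_seven]
    fin_cases l <;> simp <;> omega
  have h2 := chkQ_get (P j) s 0 h1.2 a (by omega)
  refine ⟨((s.getD a 0 : ℕ) : ZMod (P j)), fun l => ?_⟩
  have h3 := h2 l.val (L7_mem l)
  rw [L_nonneg _ (P_gt j)]
  refine ⟨cast_ne_zero h3.1, ?_⟩
  rw [chi2_cast, h3.2, Nat.zero_add, hbit l]
  exact ZMod.natCast_zmod_val (b l)

theorem sw (j : Fin 20) (hj : 13 ≤ j.val) : ∃ cst : Fin 7 → ZMod 7, ∀ b : ZMod 7,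
    ∃ μ : ZMod (P j), ∀ l : Fin 7, μ + (L l : ZMod (P j)) ≠ 0 ∧
      chi7 j (μ + (L l : ZMod (P j))) = if l.val = j.val - 13 then b else cst l := by
  have h1 := chkSws_get SW SS 0 chk_sw (j.val - 13) (by simp [SW]; omega)
  have hP : SW.getD (j.val - 13) (0, 0) = (P j, W j) := by
    have : ∀ k : Fin 20, 13 ≤ k.val → SW.getD (k.val - 13) (0, 0) = (P k, W k) := by decide
    exact this j hj
  rw [hP, Nat.zero_add] at h1
  have hlen : (SS.getD (j.val - 13) []).length = 7 := by
    have : ∀ k : Fin 20, 13 ≤ k.val → (SS.getD (k.val - 13) []).length = 7 := by decide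
    exact this j hj
  generalize SS.getD (j.val - 13) [] = s at h1 hlen
  unfold chkSw at h1
  rw [allB_iff] at h1
  refine ⟨fun l => (i7 (P j) (W j) (s.headD 0 + l.val + (P j - 3)) : ZMod 7), fun b => ?_⟩
  have hbv : b.val < s.length := by rw [hlen]; exact ZMod.val_lt b
  have hmem : s.getD b.val 0 ∈ s := by
    rw [List.getD_eq_getElem _ _ hbv]; exact List.getElem_mem hbv
  refine ⟨((s.getD b.val 0 : ℕ) : ZMod (P j)), fun l => ?_⟩
  have h2 := h1 l.val (L7_mem l)
  rw [Bool.and_eq_true, allB_iff] at h2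
  have h3 := h2.1 _ hmem
  rw [L_nonneg _ (P_gt j)]
  refine ⟨cast_ne_zero ?_, ?_⟩
  · intro h4
    rw [h4] at h3
    simp at h3
  · rw [chi7_cast]
    split_ifs with hl
    · have h5 := h2.2
      have h6 : Nat.beq l.val (j.val - 13) = true := by rw [hl]; exact Nat.beq_refl _
      rw [h6] at h5
      have h7 := eqB_eq _ _ _ h5
      have h8 : (s.map (fun x => i7 (P j) (W j) (x + l.val + (P j - 3)))).getD b.val 0 =
          L7.getD b.val 0 := by rw [h7]
      rw [List.getD_eq_getElem _ _ (by simpa using hbv), List.getElem_map] at h8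
      rw [List.getD_eq_getElem _ _ hbv, h8]
      have h9 : ∀ k : ℕ, k < 7 → L7.getD k 0 = k := by decide
      rw [h9 b.val (ZMod.val_lt b)]
      exact ZMod.natCast_zmod_val b
    · have h5 := h2.2
      have h6 : Nat.beq l.val (j.val - 13) = false := by
        rw [Bool.eq_false_iff]; intro h; exact hl (Nat.eq_of_beq_eq_true h)
      rw [h6] at h5
      simp only [cond_false] at h5
      rw [allB_iff] at h5
      rw [Nat.eq_of_beq_eq_true (h5 _ hmem)]

/-- index of the quadratic primes -/
def qj (j : Fin 13) : Fin 20 := ⟨j.val, by omega⟩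
/-- index of the switch primes -/
def sj (j : Fin 7) : Fin 20 := ⟨13 + j.val, by omega⟩

/-- the class group -/
abbrev AA : Type := ZMod 7 × (Fin 13 → ZMod 2)

/-- the character with values in `AA` -/
def XX (w : ∀ j, ZMod (P j)) : AA :=
  (∑ j : Fin 7, chi7 (sj j) (w (sj j)), fun j => chi2 (qj j) (w (qj j)))

theorem XX_mul (x y : ∀ j, ZMod (P j)) (hx : ∀ j, x j ≠ 0) (hy : ∀ j, y j ≠ 0) :
    XX (x * y) = XX x + XX y := by
  unfold XX
  refine Prod.ext ?_ ?_
  · simp only [Pi.mul_apply, Prod.fst_add]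
    rw [← Finset.sum_add_distrib]
    exact Finset.sum_congr rfl (fun j _ => chi7_mul _ _ _ (hx _) (hy _))
  · funext j
    simp only [Pi.mul_apply, Prod.snd_add, Pi.add_apply]
    exact chi2_mul _ _ _ (hx _) (hy _)

theorem card_AA : Fintype.card AA = 7 * 8192 := by
  simp [ZMod.card]

theorem pat (a : Fin 7 → AA) : ∃ μ : ∀ j, ZMod (P j), ∀ l : Fin 7,
    (∀ j, μ j + (L l : ZMod (P j)) ≠ 0) ∧ XX (fun j => μ j + (L l : ZMod (P j))) = a l := by
  have hsw : ∀ s : Fin 7, ∃ cst : Fin 7 → ZMod 7, ∀ b : ZMod 7,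
    ∃ μ : ZMod (P (sj s)), ∀ l : Fin 7, μ + (L l : ZMod (P (sj s))) ≠ 0 ∧
      chi7 (sj s) (μ + (L l : ZMod (P (sj s)))) = if l = s then b else cst l := by
    intro s
    obtain ⟨cst, h⟩ := sw (sj s) (by simp [sj])
    refine ⟨cst, fun b => ?_⟩
    obtain ⟨μ, hμ⟩ := h b
    refine ⟨μ, fun l => ?_⟩
    have := hμ l
    have e : (l.val = (sj s).val - 13) ↔ l = s := by
      simp only [sj]
      rw [Fin.ext_iff]
      constructor <;> intro h <;> omega
    rw [if_congr e rfl rfl] at this
    exact this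
  choose cst hcst using hsw
  -- value requested at the l-th switch prime
  let β : Fin 7 → ZMod 7 := fun l => (a l).1 - ∑ s ∈ Finset.univ.erase l, cst s l
  have key : ∀ j : Fin 20, ∃ μ : ZMod (P j), (∀ l : Fin 7, μ + (L l : ZMod (P j)) ≠ 0) ∧
      (∀ i : Fin 13, j = qj i → ∀ l : Fin 7, chi2 j (μ + (L l : ZMod (P j))) = (a l).2 i) ∧
      (∀ s : Fin 7, j = sj s → ∀ l : Fin 7, chi7 j (μ + (L l : ZMod (P j))) =
        if l = s then β s else cst s l) := by
    intro j
    by_cases hj : j.val < 13
    · obtain ⟨μ, hμ⟩ := quad j hj (fun l => (a l).2 ⟨j.val, hj⟩)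
      refine ⟨μ, fun l => (hμ l).1, ?_, ?_⟩
      · intro i hi l
        have e0 : j.val = (qj i).val := by rw [hi]
        have e : (⟨j.val, hj⟩ : Fin 13) = i := Fin.ext e0
        rw [(hμ l).2, e]
      · intro s hs
        exfalso
        rw [hs] at hj
        simp [sj] at hj
    · obtain ⟨s, rfl⟩ : ∃ s : Fin 7, j = sj s := by
        refine ⟨⟨j.val - 13, by omega⟩, ?_⟩
        apply Fin.ext
        simp only [sj]
        omega
      obtain ⟨μ, hμ⟩ := hcst s (β s)
      refine ⟨μ, fun l => (hμ l).1, ?_, ?_⟩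
      · intro i hi
        exfalso
        have := congrArg Fin.val hi
        simp only [sj, qj] at this
        omega
      · intro s' hs' l
        have : s' = s := by
          have := congrArg Fin.val hs'
          simp only [sj] at this
          apply Fin.ext
          omega
        subst this
        exact (hμ l).2
  choose μ hμ1 hμ2 hμ3 using key
  refine ⟨μ, fun l => ⟨fun j => hμ1 j l, ?_⟩⟩
  unfold XX
  refine Prod.ext ?_ ?_
  · simp only
    have h1 : ∀ s : Fin 7, chi7 (sj s) (μ (sj s) + (L l : ZMod (P (sj s)))) =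
        if l = s then β s else cst s l := fun s => hμ3 (sj s) s rfl l
    rw [Finset.sum_congr rfl (fun s _ => h1 s)]
    rw [← Finset.add_sum_erase Finset.univ _ (Finset.mem_univ l)]
    rw [if_pos rfl]
    have h2 : ∑ x ∈ Finset.univ.erase l, (if l = x then β x else cst x l) =
        ∑ x ∈ Finset.univ.erase l, cst x l := by
      apply Finset.sum_congr rfl
      intro x hx
      rw [if_neg]
      intro h
      exact (Finset.ne_of_mem_erase hx) h.symm
    rw [h2]
    simp only [β]
    ring
  · funext i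
    exact hμ2 (qj i) i rfl l

/-- base slopes -/
def BSs (j : Fin 20) (i : ZMod 7) : ZMod (P j) := (((BS.getD j.val []).getD i.val 0 : ℕ) : ZMod (P j))

theorem base_facts (j : Fin 20) : ((BS.getD j.val []).length = 7) ∧ ∀ l : Fin 7,
    (∀ x ∈ BS.getD j.val [], (x + l.val + (P j - 3)) % P j ≠ 0) ∧
    (mapi (fun i x => ((l.val + 4) * i + (7 - i7 (P j) (W j) (x + l.val + (P j - 3)))) % 7)
      (BS.getD j.val []) 0).Nodup := by
  have h1 := all2_get _ _ _ chk_base j.val (by simp [PW]) (0, 0) []
  have hlen : (BS.getD j.val []).length = 7 := by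
    have : ∀ k : Fin 20, (BS.getD k.val []).length = 7 := by decide
    exact this j
  refine ⟨hlen, fun l => ?_⟩
  rw [allB_iff] at h1
  have h2 := h1 l.val (L7_mem l)
  rw [Bool.and_eq_true, allB_iff, nodupB_iff] at h2
  refine ⟨fun x hx h3 => ?_, h2.2⟩
  have h4 := h2.1 x hx
  have h5 : ((x + l.val + ((PW.getD j.val (0, 0)).1 - 3)) % (PW.getD j.val (0, 0)).1) = 0 := h3
  rw [h5] at h4
  simp at h4

theorem BSs_ne (j : Fin 20) (i : ZMod 7) (l : Fin 7) : BSs j i + (L l : ZMod (P j)) ≠ 0 := by
  obtain ⟨hlen, h⟩ := base_facts j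
  unfold BSs
  rw [L_nonneg _ (P_gt j)]
  refine cast_ne_zero ((h l).1 _ ?_)
  have hi : i.val < (BS.getD j.val []).length := by rw [hlen]; exact ZMod.val_lt i
  rw [List.getD_eq_getElem _ _ hi]; exact List.getElem_mem hi

theorem i7_lt (j : Fin 20) (x : ℕ) (hx : x % P j ≠ 0) : i7 (P j) (W j) x < 7 := by
  rw [i7_eq j x hx]
  exact (chi_spec (P_prime j) (by norm_num : Nat.Prime 7) (P_e7 j) (W_pow j) (W_ne j) hx).1

theorem BSs_perm (j : Fin 20) (l : Fin 7) : Function.Injective
      (fun i : ZMod 7 => (L l : ZMod 7) * i - chi7 j (BSs j i + (L l : ZMod (P j)))) := by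
  obtain ⟨hlen, h⟩ := base_facts j
  obtain ⟨h1, h2⟩ := h l
  intro i i' hii
  simp only at hii
  rw [mapi_eq] at h2
  have hi : i.val < (BS.getD j.val []).length := by rw [hlen]; exact ZMod.val_lt i
  have hi' : i'.val < (BS.getD j.val []).length := by rw [hlen]; exact ZMod.val_lt i'
  have h3 := List.inj_on_of_nodup_map h2
  have key : ∀ k : ZMod 7, ((((l.val + 4) * (0 + k.val) + (7 - i7 (P j) (W j)
      ((BS.getD j.val []).getD k.val 0 + l.val + (P j - 3)))) % 7 : ℕ) : ZMod 7) =
      (L l : ZMod 7) * k - chi7 j (BSs j k + (L l : ZMod (P j))) := by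
    intro k
    have hk : k.val < (BS.getD j.val []).length := by rw [hlen]; exact ZMod.val_lt k
    have hne := h1 ((BS.getD j.val []).getD k.val 0) (by
      rw [List.getD_eq_getElem _ _ hk]; exact List.getElem_mem hk)
    have hlt := i7_lt j _ hne
    unfold BSs
    rw [L_nonneg _ (P_gt j), chi7_cast, ZMod.natCast_mod, Nat.cast_add, Nat.cast_sub hlt.le,
      Nat.cast_mul]
    have e1 : ((0 + k.val : ℕ) : ZMod 7) = k := by
      rw [Nat.zero_add]; exact ZMod.natCast_zmod_val k
    have e2 : ((l.val + 4 : ℕ) : ZMod 7) = (L l : ZMod 7) := by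
      unfold L
      push_cast
      have : (4 : ZMod 7) = -3 := by decide
      rw [this]; ring
    have e3 : ((7 : ℕ) : ZMod 7) = 0 := by decide
    rw [e1, e2, e3]
    ring
  have h4 := h3 (List.mem_range.mpr hi) (List.mem_range.mpr hi') (by
    have e := key i
    have e' := key i'
    rw [← hii, ← e] at e'
    have := (ZMod.natCast_eq_natCast_iff _ _ _).mp e'
    have h5 := this
    unfold Nat.ModEq at h5
    rw [Nat.mod_mod, Nat.mod_mod] at h5
    exact h5.symm)
  exact ZMod.val_injective 7 h4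

end Pool.Agent.Q3
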