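import Pool.Agent.Lib_helper79.Q3.Asm2
import Pool.Agent.Lib_helper96.Q3.PLANT
import Pool.Agent.Lib_helper9.Q3.GEO

/-! Assembly, part 3: the final function. -/

set_option autoImplicit false
set_option maxRecDepth 1000000

namespace Pool.Agent.Q3

theorem chk_lt : allB (fun t : ℕ × ℕ => Bool.and (Nat.blt t.1 nn) (Nat.blt t.2 nn))
    (NN ++ (TT ++ CC)) = true := by decide +kernel

theorem nn_eq : nn = 7 * MM := by norm_num [nn, MM]

theorem MM_eq : MM = ∏ j : Fin 20, P j := by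
  simp only [Fin.prod_univ_succ, Finset.univ_eq_empty, Finset.prod_empty]
  decide +kernel

theorem P_dvd_MM (j : Fin 20) : P j ∣ MM := by
  rw [MM_eq]; exact Finset.dvd_prod_of_mem _ (Finset.mem_univ j)

theorem P_dvd (j : Fin 20) : P j ∣ nn := by
  rw [nn_eq]; exact Dvd.dvd.mul_left (P_dvd_MM j) 7

theorem seven_dvd : 7 ∣ nn := ⟨MM, nn_eq⟩

instance : NeZero nn := ⟨by norm_num [nn]⟩

theorem P_inj : Function.Injective P := by
  have h : ∀ i j : Fin 20, P i = P j → i = j := by decide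
  exact fun i j h' => h i j h'

/-- reduction modulo all the primes -/
noncomputable def phi : ZMod nn →+* G P :=
  RingHom.prod (ZMod.castHom seven_dvd (ZMod 7))
    (Pi.ringHom fun j => ZMod.castHom (P_dvd j) (ZMod (P j)))

theorem phi_nat (x : ℕ) : phi (x : ZMod nn) = (x : G P) := map_natCast phi x

theorem snd_nat (x : ℕ) (j : Fin 20) : (x : G P).2 j = (x : ZMod (P j)) := rfl
theorem fst_nat (x : ℕ) : (x : G P).1 = (x : ZMod 7) := rfl

theorem MM_dvd {x : ℕ} (h : (x : G P).2 = 0) : MM ∣ x := by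
  rw [MM_eq]
  apply Finset.prod_dvd_of_isRelPrime
  · intro i _ j _ hij
    simp only [Function.onFun]
    rw [← Nat.coprime_iff_isRelPrime]
    exact (Nat.coprime_primes (P_prime i) (P_prime j)).mpr (fun h => hij (P_inj h))
  · intro j _
    have : (x : G P).2 j = 0 := by rw [h]; rfl
    rw [snd_nat] at this
    exact (ZMod.natCast_eq_zero_iff _ _).mp this

theorem phi_inj : Function.Injective phi := by
  rw [injective_iff_map_eq_zero]
  intro a ha
  have h1 : (a.val : G P) = 0 := by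
    rw [← phi_nat, ZMod.natCast_zmod_val, ha]
  have h2 : MM ∣ a.val := MM_dvd (by rw [h1]; rfl)
  have h3 : 7 ∣ a.val := by
    have : (a.val : G P).1 = 0 := by rw [h1]; rfl
    rw [fst_nat] at this
    exact (ZMod.natCast_eq_zero_iff _ _).mp this
  have h4 : Nat.Coprime 7 MM := by decide +kernel
  have h5 : nn ∣ a.val := by
    have h5' := Nat.Coprime.mul_dvd_of_dvd_of_dvd h4 h3 h2
    generalize a.val = v at h5' ⊢
    rw [nn_eq]; exact h5'
  have h6 := Nat.eq_zero_of_dvd_of_lt h5 (ZMod.val_lt a)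
  exact (ZMod.val_eq_zero a).mp h6

theorem phi_bij : Function.Bijective phi := by
  rw [Fintype.bijective_iff_injective_and_card]
  refine ⟨phi_inj, ?_⟩
  rw [Fintype.card_prod, Fintype.card_pi, ZMod.card, ZMod.card]
  simp only [ZMod.card]
  rw [← MM_eq, nn_eq]

theorem FF_cast (l : Fin 7) (t : ℕ × ℕ) :
    ((FF l.val t : ℕ) : ZMod nn) = (t.2 : ZMod nn) + (L l : ZMod nn) * (t.1 : ZMod nn) := by
  unfold FF
  rw [ZMod.natCast_mod]
  push_cast
  have h : ((nn - 3 : ℕ) : ZMod nn) = -3 := by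
    rw [Nat.cast_sub (by norm_num [nn])]
    simp
  rw [h]
  unfold L
  push_cast
  ring

theorem FF_G (l : Fin 7) (t : ℕ × ℕ) :
    (t.2 : G P) + (L l : G P) * (t.1 : G P) = ((FF l.val t : ℕ) : G P) := by
  have h := congrArg phi (FF_cast l t)
  rw [map_add, map_mul, map_intCast, phi_nat, phi_nat, phi_nat] at h
  exact h.symm

theorem FF_lt (l : ℕ) (t : ℕ × ℕ) : FF l t < nn := Nat.mod_lt _ (by norm_num [nn])

theorem sum7_eq (w : ℕ) : ((sum7 w : ℕ) : ZMod 7) =
    ∑ j : Fin 7, (i7 (P (sj j)) (W (sj j)) w : ZMod 7) := by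
  have h : sum7 w = ∑ j : Fin 7, i7 (P (sj j)) (W (sj j)) w := by
    rw [Fin.sum_univ_seven]
    have : sum7 w = i7 (P (sj 0)) (W (sj 0)) w + (i7 (P (sj 1)) (W (sj 1)) w +
      (i7 (P (sj 2)) (W (sj 2)) w + (i7 (P (sj 3)) (W (sj 3)) w + (i7 (P (sj 4)) (W (sj 4)) w +
      (i7 (P (sj 5)) (W (sj 5)) w + (i7 (P (sj 6)) (W (sj 6)) w + 0)))))) := rfl
    rw [this]; ring
  rw [h]
  push_cast
  rfl

theorem i2_le (p w : ℕ) : i2 p w < 2 := by
  unfold i2
  cases Nat.beq ((w % p) ^ ((p - 1) / 2) % p) 1 <;> simp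

theorem XX_nat (w : ℕ) : XX (w : G P).2 = (((sum7 w : ℕ) : ZMod 7), fun j => (i2 (P (qj j)) w : ZMod 2)) := by
  unfold XX
  refine Prod.ext ?_ ?_
  · simp only
    rw [sum7_eq]
    apply Finset.sum_congr rfl
    intro j _
    rw [snd_nat, chi7_cast]
  · funext j
    simp only
    rw [snd_nat, chi2_cast]

theorem bits_eq {w w' : ℕ} (h : ∀ j : Fin 13, i2 (P (qj j)) w = i2 (P (qj j)) w') :
    bits w = bits w' := by
  have e : ∀ v : ℕ, bits v = i2 (P (qj 0)) v + 2 * (i2 (P (qj 1)) v + 2 * (i2 (P (qj 2)) v +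
    2 * (i2 (P (qj 3)) v + 2 * (i2 (P (qj 4)) v + 2 * (i2 (P (qj 5)) v + 2 * (i2 (P (qj 6)) v +
    2 * (i2 (P (qj 7)) v + 2 * (i2 (P (qj 8)) v + 2 * (i2 (P (qj 9)) v + 2 * (i2 (P (qj 10)) v +
    2 * (i2 (P (qj 11)) v + 2 * (i2 (P (qj 12)) v + 2 * 0)))))))))))) := fun v => rfl
  rw [e w, e w']
  simp only [h]

theorem code_eq {w w' : ℕ} (h1 : (w : G P).1 = (w' : G P).1)
    (h2 : XX (w : G P).2 = XX (w' : G P).2) : code w = code w' := by
  rw [XX_nat, XX_nat] at h2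
  have h3 := congrArg Prod.fst h2
  have h4 := congrArg Prod.snd h2
  simp only at h3 h4
  have e1 : w % 7 = w' % 7 := (ZMod.natCast_eq_natCast_iff _ _ _).mp h1
  have e2 : sum7 w % 7 = sum7 w' % 7 := (ZMod.natCast_eq_natCast_iff _ _ _).mp h3
  have e3 : bits w = bits w' := by
    apply bits_eq
    intro j
    have := (ZMod.natCast_eq_natCast_iff _ _ _).mp (congrFun h4 j)
    unfold Nat.ModEq at this
    rwa [Nat.mod_eq_of_lt (i2_le _ _), Nat.mod_eq_of_lt (i2_le _ _)] at this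
  unfold code
  rw [e1, e2, e3]

theorem nodup_map_get {α : Type} (f : α → ℕ) (l : List α) (h : (l.map f).Nodup) :
    Function.Injective (fun i : Fin l.length => f (l.get i)) := by
  intro i j hij
  have h1 := List.inj_on_of_nodup_map h (List.get_mem l i) (List.get_mem l j) hij
  exact List.nodup_iff_injective_get.mp (List.Nodup.of_map f h) h1

theorem CD_nodup (i : ℕ) (hi : i < CD.length) : (CD.getD i []).Nodup := by
  have h := (allB_iff _ _).mp chk_nodup
  have h1 : CD.getD i [] ∈ CD := by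
    rw [List.getD_eq_getElem _ _ hi]; exact List.getElem_mem hi
  exact (nodupB_iff _).mp (h _ h1)

theorem CD_len : CD.length = 8 := by decide +kernel

theorem code_y_nodup : (PLt.map (fun t : ℕ × ℕ => code t.1)).Nodup := by
  rw [eqB_eq _ _ _ chk_code_y]
  exact CD_nodup 0 (by rw [CD_len]; norm_num)

theorem code_F_nodup (l : Fin 7) : (PLt.map (fun t : ℕ × ℕ => code (FF l.val t))).Nodup := by
  have h : ∀ i : ℕ, i < 8 → (CD.getD i []).Nodup := fun i hi => CD_nodup i (by rw [CD_len]; exact hi)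
  fin_cases l
  · exact (eqB_eq _ _ _ chk_code_0) ▸ h 1 (by norm_num)
  · exact (eqB_eq _ _ _ chk_code_1) ▸ h 2 (by norm_num)
  · exact (eqB_eq _ _ _ chk_code_2) ▸ h 3 (by norm_num)
  · exact (eqB_eq _ _ _ chk_code_3) ▸ h 4 (by norm_num)
  · exact (eqB_eq _ _ _ chk_code_4) ▸ h 5 (by norm_num)
  · exact (eqB_eq _ _ _ chk_code_5) ▸ h 6 (by norm_num)
  · exact (eqB_eq _ _ _ chk_code_6) ▸ h 7 (by norm_num)

theorem PW_mem (j : Fin 20) : (P j, W j) ∈ PW := by
  have h : j.val < PW.length := by simp [PW]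
  have : (P j, W j) = PW[j.val] := by
    unfold P W
    rw [List.getD_eq_getElem _ _ h]
  rw [this]
  exact List.getElem_mem h

theorem unit_facts (t : ℕ × ℕ) (ht : t ∈ PLt) (j : Fin 20) :
    t.1 % P j ≠ 0 ∧ ∀ l : Fin 7, FF l.val t % P j ≠ 0 := by
  have h := (allB_iff _ _).mp ((allB_iff _ _).mp chk_unit t ht) _ (PW_mem j)
  simp only at h
  rw [Bool.and_eq_true, allB_iff] at h
  refine ⟨fun h2 => ?_, fun l h2 => ?_⟩
  · have := h.1
    rw [h2] at this
    simp at this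
  · have := h.2 l.val (L7_mem l)
    rw [h2] at this
    simp at this

theorem PLt_len : PLt.length = 328 := by decide +kernel

/-- The graph off the fibre `w = 0`. -/
theorem exists_Gamma (hB : Base) : ∃ Γ : G P → G P,
    (∀ t ∈ PLt, Γ (t.1 : G P) = (t.2 : G P)) ∧
    (∀ y, y.2 ≠ 0 → ∀ l : Fin 7, (Γ y + (L l : G P) * y).2 ≠ 0) ∧
    (∀ y y', y.2 ≠ 0 → y'.2 ≠ 0 → ∀ l : Fin 7,
      Γ y + (L l : G P) * y = Γ y' + (L l : G P) * y' → y = y') := by
  classical
  obtain ⟨c1, h11, h12, h13⟩ := plant_pr (Fin 20) inferInstance P inferInstance AA inferInstance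
    inferInstance 8192 card_AA XX XX_mul pat (Fin PLt.length) inferInstance
    (by rw [Fintype.card_fin, PLt_len]; norm_num)
    (fun t => ((PLt.get t).1 : G P)) (fun t => ((PLt.get t).2 : G P))
    (fun t j => by
      rw [snd_nat]
      exact cast_ne_zero (unit_facts _ (List.get_mem _ _) j).1)
    (fun t l j => by
      rw [FF_G, snd_nat]
      exact cast_ne_zero ((unit_facts _ (List.get_mem _ _) j).2 l))
    (by
      intro t t' h
      simp only [Prod.mk.injEq] at h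
      exact nodup_map_get _ _ code_y_nodup (code_eq h.1 h.2))
    (by
      intro l t t' h
      simp only [FF_G, Prod.mk.injEq] at h
      exact nodup_map_get _ _ (code_F_nodup l) (code_eq h.1 h.2))
  obtain ⟨c2, h21, h22⟩ := hB (Fin 20) inferInstance inferInstance P inferInstance P_gt chi7
    chi7_mul BSs BSs_ne BSs_perm
  refine ⟨fun y => if (∀ j, y.2 j ≠ 0) then c1 y else c2 y, ?_, ?_, ?_⟩
  · intro t ht
    have hu : ∀ j, (t.1 : G P).2 j ≠ 0 := fun j => by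
      rw [snd_nat]; exact cast_ne_zero (unit_facts t ht j).1
    simp only
    rw [if_pos hu]
    obtain ⟨i, hi⟩ := List.get_of_mem ht
    have := h11 i
    simp only [hi] at this
    exact this
  · intro y hy l
    simp only
    split_ifs with h
    · intro h0
      exact h12 y h l 0 (by rw [h0]; rfl)
    · intro h0
      apply hy
      funext j
      exact (h21 y hy l j).mp (by rw [h0]; rfl)
  · intro y y' hy hy' l h
    simp only at h
    split_ifs at h with h1 h2 h2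
    · exact h13 y y' h1 h2 l h
    · exfalso
      apply h2
      intro j hj
      have h3 := (h21 y' hy' l j).mpr hj
      rw [← h] at h3
      exact h12 y h1 l j h3
    · exfalso
      apply h1
      intro j hj
      have h3 := (h21 y hy l j).mpr hj
      rw [h] at h3
      exact h12 y' h2 l j h3
    · exact h22 y y' hy hy' l h

/-- inverse of `phi` -/
noncomputable def psi : G P → ZMod nn := Function.surjInv phi_bij.2
theorem phi_psi (x : G P) : phi (psi x) = x := Function.surjInv_eq phi_bij.2 x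

open Classical in
/-- the final function -/
noncomputable def cf (Γ : G P → G P) (y : ZMod nn) : ZMod nn :=
  if h : ∃ t ∈ NN, (t.1 : ZMod nn) = y then (h.choose.2 : ZMod nn) else psi (Γ (phi y))

theorem NN_lt {t : ℕ × ℕ} (ht : t ∈ NN) : t.1 < nn ∧ t.2 < nn := by
  have h := (allB_iff _ _).mp chk_lt t (List.mem_append_left _ ht)
  rw [Bool.and_eq_true] at h
  exact ⟨by simpa [Nat.blt_eq] using h.1, by simpa [Nat.blt_eq] using h.2⟩

theorem PLt_lt {t : ℕ × ℕ} (ht : t ∈ PLt) : t.1 < nn ∧ t.2 < nn := by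
  have h := (allB_iff _ _).mp chk_lt t (List.mem_append_right _ ht)
  rw [Bool.and_eq_true] at h
  exact ⟨by simpa [Nat.blt_eq] using h.1, by simpa [Nat.blt_eq] using h.2⟩

theorem nat_inj {a b : ℕ} (ha : a < nn) (hb : b < nn) (h : (a : ZMod nn) = (b : ZMod nn)) :
    a = b := by
  have := (ZMod.natCast_eq_natCast_iff _ _ _).mp h
  unfold Nat.ModEq at this
  rwa [Nat.mod_eq_of_lt ha, Nat.mod_eq_of_lt hb] at this

theorem NN_fst_inj {t t' : ℕ × ℕ} (ht : t ∈ NN) (ht' : t' ∈ NN)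
    (h : (t.1 : ZMod nn) = (t'.1 : ZMod nn)) : t = t' := by
  have h1 := nat_inj (NN_lt ht).1 (NN_lt ht').1 h
  have h2 : (NN.map Prod.fst).Nodup := by
    rw [← mapL_eq]; exact (nodupB_iff _).mp chk_Nd
  exact List.inj_on_of_nodup_map h2 ht ht' h1

theorem NN_FF_inj (l : Fin 7) {t t' : ℕ × ℕ} (ht : t ∈ NN) (ht' : t' ∈ NN)
    (h : ((FF l.val t : ℕ) : ZMod nn) = ((FF l.val t' : ℕ) : ZMod nn)) : t = t' := by
  have h1 := nat_inj (FF_lt _ _) (FF_lt _ _) h
  have h2 : (NN.map (FF l.val)).Nodup := by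
    rw [← mapL_eq]; exact (nodupB_iff _).mp ((allB_iff _ _).mp chk_NF l.val (L7_mem l))
  exact List.inj_on_of_nodup_map h2 ht ht' h1

theorem cf_N (Γ : G P → G P) {t : ℕ × ℕ} (ht : t ∈ NN) : cf Γ (t.1 : ZMod nn) = (t.2 : ZMod nn) := by
  unfold cf
  have h : ∃ s ∈ NN, (s.1 : ZMod nn) = (t.1 : ZMod nn) := ⟨t, ht, rfl⟩
  rw [dif_pos h]
  have h1 := NN_fst_inj h.choose_spec.1 ht h.choose_spec.2
  rw [h1]

theorem cf_not (Γ : G P → G P) {y : ZMod nn} (h : ¬ ∃ t ∈ NN, (t.1 : ZMod nn) = y) :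
    phi (cf Γ y) = Γ (phi y) := by
  unfold cf
  rw [dif_neg h, phi_psi]

theorem not_K {y : ZMod nn} (h : ¬ ∃ t ∈ NN, (t.1 : ZMod nn) = y) : (phi y).2 ≠ 0 := by
  intro h0
  apply h
  have h1 : MM ∣ y.val := MM_dvd (by rw [← phi_nat, ZMod.natCast_zmod_val, h0])
  obtain ⟨k, hk⟩ := h1
  have hk7 : k < 7 := by
    have h2 := ZMod.val_lt y
    rw [hk] at h2
    have h3 : MM * k < MM * 7 := lt_of_lt_of_eq h2 (by rw [nn_eq]; ring)
    exact lt_of_mul_lt_mul_left h3 (Nat.zero_le _)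
  have h2 := chk_Ny
  rw [Bool.and_eq_true, allB_iff, allB_iff] at h2
  have h3 := h2.2 k (by interval_cases k <;> simp [L7])
  rw [memB_iff, mapL_eq, List.mem_map] at h3
  obtain ⟨t, ht, ht2⟩ := h3
  refine ⟨t, ht, ?_⟩
  rw [ht2, mul_comm, ← hk]
  exact ZMod.natCast_zmod_val y

theorem T_in_N {s : ℕ × ℕ} (hs : s ∈ TT) : ∃ t ∈ NN, (t.1 : ZMod nn) = (s.1 : ZMod nn) := by
  have h2 := chk_Ny
  rw [Bool.and_eq_true, allB_iff, allB_iff] at h2
  have h3 := h2.1 s hs
  rw [memB_iff, mapL_eq, List.mem_map] at h3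
  obtain ⟨t, ht, ht2⟩ := h3
  exact ⟨t, ht, by rw [ht2]⟩

section
variable {Γ : G P → G P} (h1 : ∀ t ∈ PLt, Γ (t.1 : G P) = (t.2 : G P))
  (h2 : ∀ y, y.2 ≠ 0 → ∀ l : Fin 7, (Γ y + (L l : G P) * y).2 ≠ 0)
  (h3 : ∀ y y', y.2 ≠ 0 → y'.2 ≠ 0 → ∀ l : Fin 7,
      Γ y + (L l : G P) * y = Γ y' + (L l : G P) * y' → y = y')
include h1 h2 h3

theorem cf_form_N (l : Fin 7) {t : ℕ × ℕ} (ht : t ∈ NN) :
    cf Γ (t.1 : ZMod nn) + (L l : ZMod nn) * (t.1 : ZMod nn) = ((FF l.val t : ℕ) : ZMod nn) := by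
  rw [cf_N Γ ht, FF_cast]

/-- a planted point with the same value of a form -/
theorem planted_eq (l : Fin 7) {y : ZMod nn} (hy : ¬ ∃ t ∈ NN, (t.1 : ZMod nn) = y)
    {s : ℕ × ℕ} (hs : s ∈ PLt)
    (h : ((FF l.val s : ℕ) : ZMod nn) = cf Γ y + (L l : ZMod nn) * y) : y = (s.1 : ZMod nn) := by
  have h4 := congrArg phi h
  rw [map_add, map_mul, map_intCast, cf_not Γ hy, phi_nat, ← FF_G, ← h1 s hs] at h4
  have hs2 : (s.1 : G P).2 ≠ 0 := by
    intro h0
    have : (s.1 : G P).2 0 = 0 := by rw [h0]; rfl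
    rw [snd_nat] at this
    exact cast_ne_zero (unit_facts s hs 0).1 this
  have h5 := h3 _ _ hs2 (not_K hy) l h4
  rw [← phi_nat] at h5
  exact (phi_inj h5).symm

theorem mixed (l : Fin 7) {t : ℕ × ℕ} (ht : t ∈ NN) {y : ZMod nn}
    (hy : ¬ ∃ t ∈ NN, (t.1 : ZMod nn) = y)
    (h : ((FF l.val t : ℕ) : ZMod nn) = cf Γ y + (L l : ZMod nn) * y)
    (hor : FF l.val t ∈ TT.map (FF l.val) ∨ FF l.val t % MM = 0) : False := by
  rcases hor with hor | hor
  · rw [List.mem_map] at hor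
    obtain ⟨s, hs, hs2⟩ := hor
    have h4 := planted_eq h1 h2 h3 l hy (List.mem_append_left _ hs : s ∈ PLt) (by rw [hs2]; exact h)
    exact hy (h4 ▸ T_in_N hs)
  · have h4 := congrArg phi h
    rw [map_add, map_mul, map_intCast, cf_not Γ hy, phi_nat] at h4
    apply h2 _ (not_K hy) l
    rw [← h4]
    funext j
    rw [snd_nat]
    have : P j ∣ FF l.val t := (P_dvd_MM j).trans (Nat.dvd_of_mod_eq_zero hor)
    exact (ZMod.natCast_eq_zero_iff _ _).mpr this

theorem NT_fact (l : Fin 7) (hl : l ≠ 0) {t : ℕ × ℕ} (ht : t ∈ NN) :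
    FF l.val t ∈ TT.map (FF l.val) ∨ FF l.val t % MM = 0 := by
  have hmem : l.val ∈ [1, 2, 3, 4, 5, 6] := by
    fin_cases l
    · exact absurd rfl hl
    all_goals simp
  have h := (allB_iff _ _).mp ((allB_iff _ _).mp chk_NT l.val hmem) t ht
  rw [Bool.or_eq_true, memB_iff, mapL_eq] at h
  rcases h with h | h
  · exact Or.inl h
  · exact Or.inr (Nat.eq_of_beq_eq_true h)

theorem form_inj (l : Fin 7) (hl : l ≠ 0) :
    Function.Injective (fun y => cf Γ y + (L l : ZMod nn) * y) := by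
  intro y y' h
  simp only at h
  by_cases hy : ∃ t ∈ NN, (t.1 : ZMod nn) = y
  · obtain ⟨t, ht, rfl⟩ := hy
    by_cases hy' : ∃ t ∈ NN, (t.1 : ZMod nn) = y'
    · obtain ⟨t', ht', rfl⟩ := hy'
      rw [cf_form_N h1 h2 h3 l ht, cf_form_N h1 h2 h3 l ht'] at h
      rw [NN_FF_inj l ht ht' h]
    · exfalso
      rw [cf_form_N h1 h2 h3 l ht] at h
      exact mixed h1 h2 h3 l ht hy' h (NT_fact h1 h2 h3 l hl ht)
  · by_cases hy' : ∃ t ∈ NN, (t.1 : ZMod nn) = y'
    · obtain ⟨t', ht', rfl⟩ := hy'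
      exfalso
      rw [cf_form_N h1 h2 h3 l ht'] at h
      exact mixed h1 h2 h3 l ht' hy h.symm (NT_fact h1 h2 h3 l hl ht')
    · have h4 := congrArg phi h
      rw [map_add, map_mul, map_add, map_mul, map_intCast, cf_not Γ hy, cf_not Γ hy'] at h4
      exact phi_inj (h3 _ _ (not_K hy) (not_K hy') l h4)

theorem harm_of {t : ℕ × ℕ} (ht : t ∈ NN) {y : ZMod nn}
    (hy : ¬ ∃ t ∈ NN, (t.1 : ZMod nn) = y)
    (h : ((FF 0 t : ℕ) : ZMod nn) = cf Γ y + (L 0 : ZMod nn) * y) :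
    ∃ c ∈ CC, y = (c.1 : ZMod nn) ∧ harm t c = true := by
  have h4 := (allB_iff _ _).mp chk_N0 t ht
  rw [Bool.or_eq_true, Bool.or_eq_true, memB_iff, mapL_eq, anyB_iff] at h4
  rcases h4 with (h5 | h5) | h5
  · exact absurd (mixed h1 h2 h3 0 ht hy h (Or.inl h5)) not_false
  · exact absurd (mixed h1 h2 h3 0 ht hy h (Or.inr (Nat.eq_of_beq_eq_true h5))) not_false
  · obtain ⟨c, hc, hc2⟩ := h5
    rw [Bool.and_eq_true] at hc2
    refine ⟨c, hc, ?_, hc2.2⟩
    have h6 := Nat.eq_of_beq_eq_true hc2.1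
    rw [h6] at h
    exact planted_eq h1 h2 h3 0 hy (List.mem_append_right _ hc : c ∈ PLt) h

theorem cf_C {c : ℕ × ℕ} (hc : c ∈ CC) (hy : ¬ ∃ t ∈ NN, (t.1 : ZMod nn) = (c.1 : ZMod nn)) :
    cf Γ (c.1 : ZMod nn) = (c.2 : ZMod nn) := by
  apply phi_inj
  rw [cf_not Γ hy, phi_nat, phi_nat]
  exact h1 c (List.mem_append_right _ hc)

theorem three_form (y y' : ZMod nn) (hlt : y.val < y'.val)
    (h : cf Γ y - 3 * y = cf Γ y' - 3 * y') :
    (cf Γ y').val + 3 * (nn - (y'.val - y.val)) ≤ nn + 1 := by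
  have hL : ((L 0 : ℤ) : ZMod nn) = -3 := by simp [L]
  have h' : cf Γ y + (L 0 : ZMod nn) * y = cf Γ y' + (L 0 : ZMod nn) * y' := by
    rw [hL]; linear_combination h
  by_cases hy : ∃ t ∈ NN, (t.1 : ZMod nn) = y
  · obtain ⟨t, ht, rfl⟩ := hy
    by_cases hy' : ∃ t ∈ NN, (t.1 : ZMod nn) = y'
    · obtain ⟨t', ht', rfl⟩ := hy'
      rw [cf_form_N h1 h2 h3 0 ht, cf_form_N h1 h2 h3 0 ht'] at h'
      rw [NN_FF_inj 0 ht ht' h'] at hlt
      exact absurd hlt (lt_irrefl _)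
    · rw [cf_form_N h1 h2 h3 0 ht] at h'
      obtain ⟨c, hc, rfl, hh⟩ := harm_of h1 h2 h3 ht hy' h'
      rw [cf_C h1 h2 h3 hc hy']
      have hcl := PLt_lt (List.mem_append_right _ hc : c ∈ PLt)
      have htl := NN_lt ht
      rw [ZMod.val_cast_of_lt htl.1, ZMod.val_cast_of_lt hcl.1] at hlt
      rw [ZMod.val_cast_of_lt htl.1, ZMod.val_cast_of_lt hcl.1, ZMod.val_cast_of_lt hcl.2]
      unfold harm at hh
      have hb : Nat.blt t.1 c.1 = true := Nat.blt_eq.mpr hlt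
      rw [hb] at hh
      exact Nat.ble_eq.mp hh
  · by_cases hy' : ∃ t ∈ NN, (t.1 : ZMod nn) = y'
    · obtain ⟨t', ht', rfl⟩ := hy'
      rw [cf_form_N h1 h2 h3 0 ht'] at h'
      obtain ⟨c, hc, rfl, hh⟩ := harm_of h1 h2 h3 ht' hy h'.symm
      rw [cf_N Γ ht']
      have hcl := PLt_lt (List.mem_append_right _ hc : c ∈ PLt)
      have htl := NN_lt ht'
      rw [ZMod.val_cast_of_lt htl.1, ZMod.val_cast_of_lt hcl.1] at hlt
      rw [ZMod.val_cast_of_lt htl.1, ZMod.val_cast_of_lt hcl.1, ZMod.val_cast_of_lt htl.2]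
      unfold harm at hh
      have hb : Nat.blt t'.1 c.1 = false := by
        rw [Bool.eq_false_iff]; intro hb
        have := Nat.blt_eq.mp hb
        omega
      rw [hb] at hh
      exact Nat.ble_eq.mp hh
    · have h4 := congrArg phi h'
      rw [map_add, map_mul, map_add, map_mul, map_intCast, cf_not Γ hy, cf_not Γ hy'] at h4
      have := phi_inj (h3 _ _ (not_K hy) (not_K hy') 0 h4)
      rw [this] at hlt
      exact absurd hlt (lt_irrefl _)

end

theorem main_of_base (hB : Base) : ∃ S : Finset (Fin 3 → ℤ),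
          S.card = nn ^ 2 ∧
          (∀ p ∈ S, ∀ i : Fin 3, 0 ≤ p i ∧ p i < (nn : ℤ)) ∧
          (∀ p ∈ S, ∀ q ∈ S, p ≠ q →
              ¬ ∃ k : ℤ, 0 < k ∧ ∀ i : Fin 3, p i - q i = 0 ∨ |p i - q i| = k) := by
  obtain ⟨Γ, h1, h2, h3⟩ := exists_Gamma hB
  refine geo_pr nn inferInstance (by decide +kernel) (cf Γ) ?_ (three_form h1 h2 h3)
  intro l hl1 hl2
  have h : ∃ i : Fin 7, i ≠ 0 ∧ L i = l := by
    refine ⟨⟨(l + 3).toNat, by omega⟩, ?_, ?_⟩
    · intro h0
      have := congrArg Fin.val h0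
      simp only [Fin.val_zero] at this
      omega
    · unfold L
      simp only
      omega
  obtain ⟨i, hi, rfl⟩ := h
  exact form_inj h1 h2 h3 i hi

end Pool.Agent.Q3
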