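import Pool.Agent.Lib_helper79.Q3.Wanted

/-! Block BASE. -/

set_option autoImplicit false

namespace Pool.Agent.Q3

theorem base_four_ne {p : ℕ} (hp : 7 < p) (l : Fin 7) : (4 : ZMod p) + (L l : ZMod p) ≠ 0 := by
  have h : (4 : ZMod p) + (L l : ZMod p) = ((l.val + 1 : ℕ) : ZMod p) := by
    unfold L; push_cast; ring
  rw [h]
  intro h0
  have h1 := (ZMod.natCast_eq_zero_iff _ _).mp h0
  have := Nat.le_of_dvd (by omega) h1
  omega

theorem base_pr' : Base := by
  classical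
  intro J hJ hJo p hpr hp χ hχ s hs hperm
  let supp : (∀ j, ZMod (p j)) → Finset J := fun w => Finset.univ.filter (fun j => w j ≠ 0)
  have hsupp : ∀ w : ∀ j, ZMod (p j), w ≠ 0 → (supp w).Nonempty := by
    intro w hw
    obtain ⟨j, hj⟩ := Function.ne_iff.mp hw
    exact ⟨j, Finset.mem_filter.mpr ⟨Finset.mem_univ _, hj⟩⟩
  -- the chosen coordinate
  let j0 : ∀ w : ∀ j, ZMod (p j), w ≠ 0 → J := fun w hw => (supp w).min' (hsupp w hw)
  have hj0 : ∀ (w : ∀ j, ZMod (p j)) (hw : w ≠ 0), w (j0 w hw) ≠ 0 := by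
    intro w hw
    have := (supp w).min'_mem (hsupp w hw)
    exact (Finset.mem_filter.mp this).2
  have hj0c : ∀ (w : ∀ j, ZMod (p j)) (hw : w ≠ 0) (w' : ∀ j, ZMod (p j)) (hw' : w' ≠ 0),
      (∀ j, w j = 0 ↔ w' j = 0) → j0 w hw = j0 w' hw' := by
    intro w hw w' hw' h
    have hS : supp w = supp w' := by
      ext j; simp [supp, h j]
    simp only [j0]
    congr 1
  let c : G p → G p := fun y => if h : y.2 ≠ 0 then
    (χ (j0 y.2 h) (y.2 (j0 y.2 h)), fun j => (if j = j0 y.2 h then s j y.1 else 4) * y.2 j) else 0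
  have hc1 : ∀ (y : G p) (h : y.2 ≠ 0) (l : Fin 7), (c y + (L l : G p) * y).1 =
      χ (j0 y.2 h) (y.2 (j0 y.2 h)) + (L l : ZMod 7) * y.1 := by
    intro y h l
    simp only [c, dif_pos h]
    rfl
  have hc2 : ∀ (y : G p) (h : y.2 ≠ 0) (l : Fin 7) (j : J), (c y + (L l : G p) * y).2 j =
      ((if j = j0 y.2 h then s j y.1 else 4) + (L l : ZMod (p j))) * y.2 j := by
    intro y h l j
    simp only [c, dif_pos h]
    rw [add_mul]
    rfl
  have hne : ∀ (y : G p) (h : y.2 ≠ 0) (l : Fin 7) (j : J),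
      (if j = j0 y.2 h then s j y.1 else 4) + (L l : ZMod (p j)) ≠ 0 := by
    intro y h l j
    split_ifs with hj
    · exact hs j y.1 l
    · exact base_four_ne (hp j) l
  have hP1 : ∀ y : G p, y.2 ≠ 0 → ∀ (l : Fin 7) j, (c y + (L l : G p) * y).2 j = 0 ↔ y.2 j = 0 := by
    intro y h l j
    rw [hc2 y h l j]
    constructor
    · intro h0
      exact (mul_eq_zero.mp h0).resolve_left (hne y h l j)
    · intro h0
      rw [h0, mul_zero]
  refine ⟨c, hP1, ?_⟩
  intro y y' hy hy' l h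
  have hz : ∀ j, y.2 j = 0 ↔ y'.2 j = 0 := by
    intro j
    rw [← hP1 y hy l j, h, hP1 y' hy' l j]
  have hjj := hj0c y.2 hy y'.2 hy' hz
  have e1 := congrArg Prod.fst h
  rw [hc1 y hy l, hc1 y' hy' l] at e1
  have e2 : ∀ j, ((if j = j0 y.2 hy then s j y.1 else 4) + (L l : ZMod (p j))) * y.2 j =
      ((if j = j0 y'.2 hy' then s j y'.1 else 4) + (L l : ZMod (p j))) * y'.2 j := by
    intro j
    have := congrFun (congrArg Prod.snd h) j
    rwa [hc2 y hy l j, hc2 y' hy' l j] at this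
  rw [← hjj] at e1 e2
  have hw0 := hj0 y.2 hy
  have hw0' : y'.2 (j0 y.2 hy) ≠ 0 := fun h0 => hw0 ((hz _).mpr h0)
  have e3 := e2 (j0 y.2 hy)
  simp only [if_true] at e3
  have e4 := congrArg (χ (j0 y.2 hy)) e3
  rw [hχ _ _ _ (hs _ _ _) hw0, hχ _ _ _ (hs _ _ _) hw0'] at e4
  have hi : y.1 = y'.1 := by
    apply hperm (j0 y.2 hy) l
    simp only
    linear_combination e1 - e4
  have hw : y.2 = y'.2 := by
    funext j
    have e5 := e2 j
    rw [← hi] at e5
    exact mul_left_cancel₀ (hne y hy l j) e5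
  exact Prod.ext hi hw

end Pool.Agent.Q3
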