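import Pool.Agent.Lib_helper79.Q3.Data

/-! Kernel checks of the data. -/

set_option autoImplicit false
set_option maxRecDepth 1000000

namespace Pool.Agent.Q3

noncomputable def allB {α : Type} (f : α → Bool) (l : List α) : Bool :=
  List.rec true (fun a _ ih => Bool.and (f a) ih) l

noncomputable def anyB {α : Type} (f : α → Bool) (l : List α) : Bool :=
  List.rec false (fun a _ ih => Bool.or (f a) ih) l

noncomputable def mapL {α β : Type} (f : α → β) (l : List α) : List β :=
  List.rec [] (fun a _ ih => f a :: ih) l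

noncomputable def nodupB (l : List ℕ) : Bool :=
  List.rec true (fun a t ih => Bool.and (allB (fun b => Bool.not (Nat.beq a b)) t) ih) l

noncomputable def memB (a : ℕ) (l : List ℕ) : Bool := anyB (Nat.beq a) l

/-- list equality with literals -/
noncomputable def eqB {α : Type} (f : α → ℕ) (l : List α) : List ℕ → Bool :=
  List.rec (fun m => List.rec true (fun _ _ _ => false) m)
    (fun a _ ih m => List.rec false (fun b t _ => Bool.and (Nat.beq (f a) b) (ih t)) m) l

/-- the forms: `l = 0..6` stands for `c + (l - 3) y`. -/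
def FF (l : ℕ) (t : ℕ × ℕ) : ℕ := (t.2 + (l + (nn - 3)) * t.1) % nn

/-- index of a seventh root of unity -/
def ix7 (p ω r : ℕ) : ℕ :=
  bif Nat.beq r 1 then 0 else
  bif Nat.beq r (ω % p) then 1 else
  bif Nat.beq r (ω ^ 2 % p) then 2 else
  bif Nat.beq r (ω ^ 3 % p) then 3 else
  bif Nat.beq r (ω ^ 4 % p) then 4 else
  bif Nat.beq r (ω ^ 5 % p) then 5 else
  bif Nat.beq r (ω ^ 6 % p) then 6 else 7

def i7 (p ω w : ℕ) : ℕ := ix7 p ω ((w % p) ^ ((p - 1) / 7) % p)

def i2 (p w : ℕ) : ℕ :=
  bif Nat.beq ((w % p) ^ ((p - 1) / 2) % p) 1 then 0 else 1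

noncomputable def sum7 (w : ℕ) : ℕ := List.rec 0 (fun a _ ih => i7 a.1 a.2 w + ih) SW
noncomputable def bits (w : ℕ) : ℕ := List.rec 0 (fun a _ ih => i2 a w + 2 * ih) Q2

noncomputable def code (w : ℕ) : ℕ := w % 7 + 7 * (sum7 w % 7) + 49 * bits w

noncomputable def PLt : List (ℕ × ℕ) := TT ++ CC

theorem chk_code_y : eqB (fun t : ℕ × ℕ => code t.1) PLt (CD.getD 0 []) = true := by
  decide +kernel


theorem chk_code_0 : eqB (fun t : ℕ × ℕ => code (FF 0 t)) PLt (CD.getD 1 []) = true := by decide +kernel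
theorem chk_code_1 : eqB (fun t : ℕ × ℕ => code (FF 1 t)) PLt (CD.getD 2 []) = true := by decide +kernel
theorem chk_code_2 : eqB (fun t : ℕ × ℕ => code (FF 2 t)) PLt (CD.getD 3 []) = true := by decide +kernel
theorem chk_code_3 : eqB (fun t : ℕ × ℕ => code (FF 3 t)) PLt (CD.getD 4 []) = true := by decide +kernel
theorem chk_code_4 : eqB (fun t : ℕ × ℕ => code (FF 4 t)) PLt (CD.getD 5 []) = true := by decide +kernel
theorem chk_code_5 : eqB (fun t : ℕ × ℕ => code (FF 5 t)) PLt (CD.getD 6 []) = true := by decide +kernel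
theorem chk_code_6 : eqB (fun t : ℕ × ℕ => code (FF 6 t)) PLt (CD.getD 7 []) = true := by decide +kernel

theorem chk_nodup : allB nodupB CD = true := by decide +kernel

def L7 : List ℕ := [0, 1, 2, 3, 4, 5, 6]

theorem chk_unit : allB (fun t : ℕ × ℕ => allB (fun a : ℕ × ℕ =>
    Bool.and (Bool.not (Nat.beq (t.1 % a.1) 0))
      (allB (fun l => Bool.not (Nat.beq (FF l t % a.1) 0)) L7)) PW) PLt = true := by decide +kernel

/-- `N` contains the `y`-coordinates of `T` and of `K`. -/
theorem chk_Ny : Bool.and (allB (fun t : ℕ × ℕ => memB t.1 (mapL Prod.fst NN)) TT)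
    (allB (fun k => memB (k * MM) (mapL Prod.fst NN)) L7) = true := by decide +kernel

theorem chk_Nd : nodupB (mapL Prod.fst NN) = true := by decide +kernel

theorem chk_NF : allB (fun l => nodupB (mapL (FF l) NN)) L7 = true := by decide +kernel

/-- for the exact forms, the values of `N` are values of `T` or in `K` -/
theorem chk_NT : allB (fun l => allB (fun t => Bool.or (memB (FF l t) (mapL (FF l) TT))
    (Nat.beq (FF l t % MM) 0)) NN) [1, 2, 3, 4, 5, 6] = true := by decide +kernel

/-- harmless pair -/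
def harm (a b : ℕ × ℕ) : Bool :=
  bif Nat.blt a.1 b.1 then Nat.ble (b.2 + 3 * (nn - (b.1 - a.1))) (nn + 1)
  else Nat.ble (a.2 + 3 * (nn - (a.1 - b.1))) (nn + 1)

theorem chk_N0 : allB (fun t => Bool.or (Bool.or (memB (FF 0 t) (mapL (FF 0) TT))
    (Nat.beq (FF 0 t % MM) 0))
    (anyB (fun c => Bool.and (Nat.beq (FF 0 t) (FF 0 c)) (harm t c)) CC)) NN = true := by
  decide +kernel

/-- base slopes: `(L l) i - χ(s_i + L l)` is injective in `i`. -/
noncomputable def mapi (f : ℕ → ℕ → ℕ) (l : List ℕ) : ℕ → List ℕ :=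
  List.rec (fun _ => []) (fun a _ ih i => f i a :: ih (i + 1)) l

noncomputable def all2 {α β : Type} (f : α → β → Bool) (l : List α) : List β → Bool :=
  List.rec (fun _ => true)
    (fun a _ ih m => List.rec false (fun b t _ => Bool.and (f a b) (ih t)) m) l

theorem chk_base : all2 (fun (a : ℕ × ℕ) s => allB (fun l =>
    Bool.and (allB (fun x => Bool.not (Nat.beq ((x + l + (a.1 - 3)) % a.1) 0)) s)
    (nodupB (mapi (fun i x => ((l + 4) * i + (7 - i7 a.1 a.2 (x + l + (a.1 - 3)))) % 7) s 0))) L7)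
      PW BS = true := by decide +kernel

/-- switch slopes: the `j`-th switch prime has seven slopes which agree except in the entry `j`. -/
noncomputable def chkSw (a : ℕ × ℕ) (j : ℕ) (s : List ℕ) : Bool :=
  allB (fun l => Bool.and (allB (fun x => Bool.not (Nat.beq ((x + l + (a.1 - 3)) % a.1) 0)) s)
    (bif Nat.beq l j then eqB (fun x => i7 a.1 a.2 (x + l + (a.1 - 3))) s L7
      else allB (fun x => Nat.beq (i7 a.1 a.2 (x + l + (a.1 - 3)))
        (i7 a.1 a.2 (s.headD 0 + l + (a.1 - 3)))) s)) L7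

noncomputable def chkSws : List (ℕ × ℕ) → ℕ → List (List ℕ) → Bool :=
  fun l => List.rec (fun _ _ => true) (fun a _ ih j m => List.rec false
    (fun s t _ => Bool.and (chkSw a j s) (ih (j + 1) t)) m) l

theorem chk_sw : chkSws SW 0 SS = true := by decide +kernel

/-- quadratic patterns. -/
noncomputable def chkQ (p : ℕ) : List ℕ → ℕ → Bool :=
  fun s => List.rec (fun _ => true) (fun x _ ih a => Bool.and
    (allB (fun l => Bool.and (Bool.not (Nat.beq ((x + l + (p - 3)) % p) 0))
      (Nat.beq (i2 p (x + l + (p - 3))) (a / 2 ^ l % 2))) L7) (ih (a + 1))) s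

theorem chk_qp : all2 (fun p s => Bool.and (Nat.beq s.length 128) (chkQ p s 0)) Q2 QP = true := by
  decide +kernel

end Pool.Agent.Q3
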