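import Mathlib

/-!
# MP_479881_co, S08514 (n = 7M): wanted blocks.

Forms: for `l : Fin 7` put `L l = l - 3 ∈ {-3,…,3}`.  The form is `y ↦ c y + L l * y`.
-/

set_option autoImplicit false

namespace Pool.Agent.Q3

/-- the integer `l - 3`. -/
def L (l : Fin 7) : ℤ := (l : ℕ) - 3

/-- the group (ring) `Z_7 × ∏ F_p`. -/
abbrev G {J : Type} (p : J → ℕ) : Type := ZMod 7 × (∀ j, ZMod (p j))

/-- BLOCK GEO.  From a function on `Z_n` to the queens. -/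
def Geo : Prop := ∀ (n : ℕ) (_ : NeZero n), Nat.Coprime n 6 → ∀ c : ZMod n → ZMod n,
  (∀ l : ℤ, -2 ≤ l → l ≤ 3 → Function.Injective (fun y => c y + (l : ZMod n) * y)) →
  (∀ y y' : ZMod n, y.val < y'.val → c y - 3 * y = c y' - 3 * y' →
      (c y').val + 3 * (n - (y'.val - y.val)) ≤ n + 1) →
  ∃ S : Finset (Fin 3 → ℤ),
          S.card = n ^ 2 ∧
          (∀ p ∈ S, ∀ i : Fin 3, 0 ≤ p i ∧ p i < (n : ℤ)) ∧
          (∀ p ∈ S, ∀ q ∈ S, p ≠ q →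
              ¬ ∃ k : ℤ, 0 < k ∧ ∀ i : Fin 3, p i - q i = 0 ∨ |p i - q i| = k)

/-- BLOCK PLANT.  Planting a finite partial graph in the unit stratum. -/
def Plant : Prop := ∀ (J : Type) (_ : Fintype J) (p : J → ℕ) (_ : ∀ j, Fact (p j).Prime)
  (A : Type) (_ : AddCommGroup A) (_ : Fintype A) (m : ℕ), Fintype.card A = 7 * m →
  ∀ X : (∀ j, ZMod (p j)) → A,
  (∀ x y, (∀ j, x j ≠ 0) → (∀ j, y j ≠ 0) → X (x * y) = X x + X y) →
  (∀ a : Fin 7 → A, ∃ μ : ∀ j, ZMod (p j), ∀ l : Fin 7,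
      (∀ j, μ j + (L l : ZMod (p j)) ≠ 0) ∧ X (fun j => μ j + (L l : ZMod (p j))) = a l) →
  ∀ (ι : Type) (_ : Fintype ι), Fintype.card ι ≤ m → ∀ (Y C : ι → G p),
  (∀ t j, (Y t).2 j ≠ 0) →
  (∀ t (l : Fin 7) j, (C t + (L l : G p) * Y t).2 j ≠ 0) →
  (Function.Injective (fun t => ((Y t).1, X (Y t).2))) →
  (∀ l : Fin 7, Function.Injective (fun t =>
      ((C t + (L l : G p) * Y t).1, X (C t + (L l : G p) * Y t).2))) →
  ∃ c : G p → G p, (∀ t, c (Y t) = C t) ∧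
    (∀ y, (∀ j, y.2 j ≠ 0) → ∀ (l : Fin 7) j, (c y + (L l : G p) * y).2 j ≠ 0) ∧
    (∀ y y', (∀ j, y.2 j ≠ 0) → (∀ j, y'.2 j ≠ 0) → ∀ l : Fin 7,
      c y + (L l : G p) * y = c y' + (L l : G p) * y' → y = y')

/-- BLOCK BASE.  The structure on all strata other than `w = 0`. -/
def Base : Prop := ∀ (J : Type) (_ : Fintype J) (_ : LinearOrder J) (p : J → ℕ)
  (_ : ∀ j, Fact (p j).Prime), (∀ j, 7 < p j) →
  ∀ χ : ∀ j, ZMod (p j) → ZMod 7,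
  (∀ j (x y : ZMod (p j)), x ≠ 0 → y ≠ 0 → χ j (x * y) = χ j x + χ j y) →
  ∀ s : ∀ j, ZMod 7 → ZMod (p j),
  (∀ j i (l : Fin 7), s j i + (L l : ZMod (p j)) ≠ 0) →
  (∀ j (l : Fin 7), Function.Injective
      (fun i : ZMod 7 => (L l : ZMod 7) * i - χ j (s j i + (L l : ZMod (p j))))) →
  ∃ c : G p → G p,
    (∀ y, y.2 ≠ 0 → ∀ (l : Fin 7) j, (c y + (L l : G p) * y).2 j = 0 ↔ y.2 j = 0) ∧
    (∀ y y', y.2 ≠ 0 → y'.2 ≠ 0 → ∀ l : Fin 7,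
      c y + (L l : G p) * y = c y' + (L l : G p) * y' → y = y')

/-- computable index: the first `k < m` with `x^e ≡ ω^k (mod p)` (or `m` if there is none). -/
def idx (p m e ω x : ℕ) : ℕ :=
  ((List.range m).find? (fun k => (x ^ e) % p == (ω ^ k) % p)).getD 0

/-- BLOCK CHI.  The index is a character. -/
def Chi : Prop := ∀ (p m e ω : ℕ), p.Prime → m.Prime → m * e + 1 = p → ω ^ m % p = 1 → ω % p ≠ 1 →
  ∀ x y : ℕ, x % p ≠ 0 → y % p ≠ 0 →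
    (idx p m e ω (x * y) : ZMod m) = (idx p m e ω x : ZMod m) + (idx p m e ω y : ZMod m) ∧
    idx p m e ω (x % p) = idx p m e ω x

end Pool.Agent.Q3
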